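import Pool.Agent.helper3.FT.Defs

/-! FT module E2: the cell argument. -/

set_option autoImplicit false

namespace Pool.Agent.helper3.FT

open Finset

/-- weight of the distance `j / M` -/
noncomputable def E2A (M : ℕ) (j : ℕ) : ℝ := if j = 0 then 2 * M + 1 else M / (2 * j)

theorem E2A_nonneg (M j : ℕ) : 0 ≤ E2A M j := by
  unfold E2A
  split_ifs <;> positivity

theorem E2A_sum (M : ℕ) (hM : 1 ≤ M) :
    ∑ i ∈ range M, E2A M i ≤ 7 / 2 * (M * (1 + Real.log M)) := by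
  have hM' : (1 : ℝ) ≤ M := by exact_mod_cast hM
  have hlog : 0 ≤ Real.log M := Real.log_nonneg hM'
  obtain ⟨m, rfl⟩ : ∃ m, M = m + 1 := ⟨M - 1, by omega⟩
  rw [Finset.sum_range_succ']
  have h0 : E2A (m + 1) 0 = 2 * ((m + 1 : ℕ) : ℝ) + 1 := by simp [E2A]
  have h1 : ∀ k ∈ range m, E2A (m + 1) (k + 1) = ((m + 1 : ℕ) : ℝ) / 2 * (((k + 1 : ℕ) : ℝ)⁻¹) := by
    intro k _
    simp only [E2A, Nat.succ_ne_zero, if_false, Nat.add_eq_zero_iff, one_ne_zero, and_false]
    push_cast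
    field_simp
  rw [Finset.sum_congr rfl h1, ← Finset.mul_sum, h0]
  have h2 : ∑ k ∈ range m, (((k + 1 : ℕ) : ℝ)⁻¹) ≤ 1 + Real.log ((m + 1 : ℕ) : ℝ) := by
    have h3 := harmonic_le_one_add_log (m + 1)
    have h4 : ((harmonic (m + 1) : ℚ) : ℝ) = ∑ k ∈ range (m + 1), (((k + 1 : ℕ) : ℝ)⁻¹) := by
      simp [harmonic]
    rw [h4, Finset.sum_range_succ] at h3
    have h5 : (0 : ℝ) ≤ (((m + 1 : ℕ) : ℝ)⁻¹) := by positivity
    linarith
  have h6 : ((m + 1 : ℕ) : ℝ) / 2 * ∑ k ∈ range m, (((k + 1 : ℕ) : ℝ)⁻¹) ≤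
      ((m + 1 : ℕ) : ℝ) / 2 * (1 + Real.log ((m + 1 : ℕ) : ℝ)) :=
    mul_le_mul_of_nonneg_left h2 (by positivity)
  nlinarith

/-- weight of the cell `i` -/
noncomputable def E2W (M : ℕ) (i : ℕ) : ℝ := E2A M i + E2A M (M - 1 - i)

theorem E2W_nonneg (M i : ℕ) : 0 ≤ E2W M i := add_nonneg (E2A_nonneg _ _) (E2A_nonneg _ _)

theorem E2W_sum (M : ℕ) (hM : 1 ≤ M) :
    ∑ i ∈ range M, E2W M i ≤ 7 * (M * (1 + Real.log M)) := by
  unfold E2W
  rw [Finset.sum_add_distrib, Finset.sum_range_reflect (fun i => E2A M i) M]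
  have := E2A_sum M hM
  linarith

/-- the index of the cell of `x` -/
noncomputable def E2i (M : ℕ) (x : ℝ) : ℕ := ⌊Int.fract x * M⌋₊

theorem E2i_lt {M : ℕ} (hM : 1 ≤ M) (x : ℝ) : E2i M x < M := by
  have hM' : (0 : ℝ) < M := by exact_mod_cast hM
  unfold E2i
  rw [Nat.floor_lt (mul_nonneg (Int.fract_nonneg x) hM'.le)]
  calc Int.fract x * M < 1 * M := mul_lt_mul_of_pos_right (Int.fract_lt_one x) hM'
    _ = M := one_mul _

theorem E2_wt_le_big (M : ℕ) (x : ℝ) : wt M x ≤ 2 * M + 1 := by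
  unfold wt
  split_ifs with h
  · exact le_rfl
  · push Not at h
    have hpos : (0 : ℝ) < 2 * M + 1 := by positivity
    have hnd : 0 < 2 * nd x := by
      by_contra hn
      push Not at hn
      nlinarith
    rw [div_le_iff₀ hnd]
    linarith

theorem E2_wt_le_inv (M : ℕ) {x t : ℝ} (ht : 0 < t) (h : t ≤ nd x) : wt M x ≤ 1 / (2 * t) := by
  unfold wt
  have hpos : (0 : ℝ) < 2 * M + 1 := by positivity
  split_ifs with h1
  · rw [le_div_iff₀ (by positivity)]
    nlinarith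
  · apply one_div_le_one_div_of_le (by positivity)
    linarith

theorem E2_wt (M : ℕ) (hM : 1 ≤ M) (x : ℝ) : wt M x ≤ E2W M (E2i M x) := by
  have hM' : (0 : ℝ) < M := by exact_mod_cast hM
  set i := E2i M x with hi
  have hiM := E2i_lt hM x
  rw [← hi] at hiM
  have hf0 := Int.fract_nonneg x
  have hf1 : (i : ℝ) ≤ Int.fract x * M := Nat.floor_le (mul_nonneg hf0 hM'.le)
  have hf2 : Int.fract x * M < i + 1 := Nat.lt_floor_add_one _
  have hnd : nd x = min (Int.fract x) (1 - Int.fract x) := abs_sub_round_eq_min x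
  have key : ∀ j : ℕ, (j : ℝ) ≤ nd x * M → wt M x ≤ E2A M j := by
    intro j hj
    unfold E2A
    split_ifs with h0
    · exact E2_wt_le_big M x
    · have hj0 : (0 : ℝ) < j := by exact_mod_cast Nat.pos_of_ne_zero h0
      have := E2_wt_le_inv M (x := x) (t := j / M) (by positivity) (by
        rw [div_le_iff₀ hM']
        exact hj)
      calc wt M x ≤ 1 / (2 * (j / M)) := this
        _ = M / (2 * j) := by field_simp
  unfold E2W
  rcases le_total (Int.fract x) (1 - Int.fract x) with h | h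
  · rw [min_eq_left h] at hnd
    have := key i (by rw [hnd]; exact hf1)
    have := E2A_nonneg M (M - 1 - i)
    linarith
  · rw [min_eq_right h] at hnd
    have hc : ((M - 1 - i : ℕ) : ℝ) = M - 1 - i := by
      rw [Nat.cast_sub (by omega), Nat.cast_sub hM]
      simp
    have := key (M - 1 - i) (by rw [hnd, hc]; linarith)
    have := E2A_nonneg M i
    linarith

theorem E2_nd_sub {M : ℕ} (hM : 1 ≤ M) {x y : ℝ} (h : E2i M x = E2i M y) : nd (x - y) ≤ 1 / M := by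
  have hM' : (0 : ℝ) < M := by exact_mod_cast hM
  have h1 : nd (x - y) ≤ |x - y - ((⌊x⌋ - ⌊y⌋ : ℤ) : ℝ)| := round_le (x - y) (⌊x⌋ - ⌊y⌋)
  have h2 : x - y - ((⌊x⌋ - ⌊y⌋ : ℤ) : ℝ) = Int.fract x - Int.fract y := by
    rw [Int.fract, Int.fract]
    push_cast
    ring
  rw [h2] at h1
  refine h1.trans ?_
  have a1 : (E2i M x : ℝ) ≤ Int.fract x * M := Nat.floor_le (mul_nonneg (Int.fract_nonneg x) hM'.le)
  have a2 : Int.fract x * M < E2i M x + 1 := Nat.lt_floor_add_one _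
  have b1 : (E2i M y : ℝ) ≤ Int.fract y * M := Nat.floor_le (mul_nonneg (Int.fract_nonneg y) hM'.le)
  have b2 : Int.fract y * M < E2i M y + 1 := Nat.lt_floor_add_one _
  rw [h] at a1 a2
  rw [abs_le]
  constructor
  · rw [neg_le_iff_add_nonneg, ← sub_nonneg]
    have : 0 ≤ (Int.fract x - Int.fract y + 1 / M) * M := by
      have : (Int.fract x - Int.fract y + 1 / M) * M = Int.fract x * M - Int.fract y * M + 1 := by
        field_simp
      rw [this]
      linarith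
    have := nonneg_of_mul_nonneg_left this hM'
    linarith
  · rw [le_div_iff₀ hM']
    linarith

open Classical in
/-- E2 -/
theorem cells : ∃ C : ℝ, 0 ≤ C ∧ ∀ M G : ℕ, 1 ≤ M → 1 ≤ G → ∀ a b b' c : ℝ,
    ∑ u ∈ Icc (-(2 * M : ℤ)) (2 * M), ∑ v ∈ Icc (-(2 * G : ℤ)) (2 * G),
      wt M (a * u + b * v) * wt G (b' * u + c * v) ≤
    C * (1 + Real.log M) * (1 + Real.log G) * M * G *
      (((Icc (-(4 * M : ℤ)) (4 * M) ×ˢ Icc (-(4 * G : ℤ)) (4 * G)).filter
        (fun p => nd (a * p.1 + b * p.2) ≤ 1 / M ∧ nd (b' * p.1 + c * p.2) ≤ 1 / G)).card : ℝ) := by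
  refine ⟨49, by norm_num, ?_⟩
  intro M G hM hG a b b' c
  set R := ((Icc (-(4 * M : ℤ)) (4 * M) ×ˢ Icc (-(4 * G : ℤ)) (4 * G)).filter
        (fun p => nd (a * p.1 + b * p.2) ≤ 1 / M ∧ nd (b' * p.1 + c * p.2) ≤ 1 / G)) with hR
  set P := (Icc (-(2 * M : ℤ)) (2 * M) ×ˢ Icc (-(2 * G : ℤ)) (2 * G)) with hP
  let L1 : ℤ × ℤ → ℝ := fun p => a * p.1 + b * p.2
  let L2 : ℤ × ℤ → ℝ := fun p => b' * p.1 + c * p.2
  have e1 : ∑ u ∈ Icc (-(2 * M : ℤ)) (2 * M), ∑ v ∈ Icc (-(2 * G : ℤ)) (2 * G),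
      wt M (a * u + b * v) * wt G (b' * u + c * v) = ∑ p ∈ P, wt M (L1 p) * wt G (L2 p) := by
    rw [hP, Finset.sum_product]
  rw [e1]
  have hwt0 : ∀ (G : ℕ) (x : ℝ), 0 ≤ wt G x := by
    intro G x
    unfold wt nd
    split_ifs <;> positivity
  have s1 : ∑ p ∈ P, wt M (L1 p) * wt G (L2 p) ≤
      ∑ p ∈ P, E2W M (E2i M (L1 p)) * E2W G (E2i G (L2 p)) := by
    apply Finset.sum_le_sum
    intro p _
    exact mul_le_mul (E2_wt M hM _) (E2_wt G hG _) (hwt0 _ _) (E2W_nonneg _ _)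
  let T := range M ×ˢ range G
  let g : ℤ × ℤ → ℕ × ℕ := fun p => (E2i M (L1 p), E2i G (L2 p))
  have hg : ∀ p ∈ P, g p ∈ T := by
    intro p _
    simp only [T, g, Finset.mem_product, Finset.mem_range]
    exact ⟨E2i_lt hM _, E2i_lt hG _⟩
  have s2 : ∑ p ∈ P, E2W M (E2i M (L1 p)) * E2W G (E2i G (L2 p)) =
      ∑ t ∈ T, ((P.filter (fun p => g p = t)).card : ℝ) * (E2W M t.1 * E2W G t.2) := by
    rw [← Finset.sum_fiberwise_of_maps_to hg]
    apply Finset.sum_congr rfl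
    intro t _
    rw [← nsmul_eq_mul, ← Finset.sum_const]
    apply Finset.sum_congr rfl
    intro p hp
    have := (Finset.mem_filter.mp hp).2
    rw [← this]
  have s3 : ∀ t, ((P.filter (fun p => g p = t)).card : ℝ) ≤ (R.card : ℝ) := by
    intro t
    rcases (P.filter (fun p => g p = t)).eq_empty_or_nonempty with h | ⟨p0, hp0⟩
    · rw [h]
      simp
    · norm_cast
      apply Finset.card_le_card_of_injOn (fun p => (p.1 - p0.1, p.2 - p0.2))
      · intro p hp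
        simp only [Finset.coe_filter, Set.mem_setOf_eq, Finset.mem_filter] at hp hp0
        obtain ⟨hpP, hpt⟩ := hp
        obtain ⟨hp0P, hp0t⟩ := hp0
        simp only [hP, Finset.mem_product, Finset.mem_Icc] at hpP hp0P
        have hgg : g p = g p0 := by rw [hpt, hp0t]
        simp only [g, Prod.mk.injEq] at hgg
        simp only [hR, Finset.coe_filter, Set.mem_setOf_eq, Finset.mem_product, Finset.mem_Icc]
        have n1 := E2_nd_sub hM hgg.1
        have n2 := E2_nd_sub hG hgg.2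
        have f1 : L1 p - L1 p0 = a * ((p.1 - p0.1 : ℤ) : ℝ) + b * ((p.2 - p0.2 : ℤ) : ℝ) := by
          simp only [L1]
          push_cast
          ring
        have f2 : L2 p - L2 p0 = b' * ((p.1 - p0.1 : ℤ) : ℝ) + c * ((p.2 - p0.2 : ℤ) : ℝ) := by
          simp only [L2]
          push_cast
          ring
        rw [f1] at n1
        rw [f2] at n2
        refine ⟨⟨⟨?_, ?_⟩, ?_, ?_⟩, n1, n2⟩ <;> omega
      · intro p _ q _ hpq
        simp only [Prod.mk.injEq] at hpq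
        ext
        · have := hpq.1
          omega
        · have := hpq.2
          omega
  have s4 : ∑ t ∈ T, ((P.filter (fun p => g p = t)).card : ℝ) * (E2W M t.1 * E2W G t.2) ≤
      ∑ t ∈ T, (R.card : ℝ) * (E2W M t.1 * E2W G t.2) := by
    apply Finset.sum_le_sum
    intro t _
    exact mul_le_mul_of_nonneg_right (s3 t) (mul_nonneg (E2W_nonneg _ _) (E2W_nonneg _ _))
  have s5 : ∑ t ∈ T, (R.card : ℝ) * (E2W M t.1 * E2W G t.2) =
      (R.card : ℝ) * ((∑ i ∈ range M, E2W M i) * ∑ j ∈ range G, E2W G j) := by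
    rw [← Finset.mul_sum, Finset.sum_mul_sum, Finset.sum_product]
  have s6 : (∑ i ∈ range M, E2W M i) * ∑ j ∈ range G, E2W G j ≤
      (7 * (M * (1 + Real.log M))) * (7 * (G * (1 + Real.log G))) := by
    apply mul_le_mul (E2W_sum M hM) (E2W_sum G hG) (Finset.sum_nonneg (fun i _ => E2W_nonneg _ _))
    have : (1 : ℝ) ≤ M := by exact_mod_cast hM
    have := Real.log_nonneg this
    positivity
  calc ∑ p ∈ P, wt M (L1 p) * wt G (L2 p)
      ≤ ∑ t ∈ T, ((P.filter (fun p => g p = t)).card : ℝ) * (E2W M t.1 * E2W G t.2) := s1.trans s2.le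
    _ ≤ (R.card : ℝ) * ((∑ i ∈ range M, E2W M i) * ∑ j ∈ range G, E2W G j) := s4.trans s5.le
    _ ≤ (R.card : ℝ) * ((7 * (M * (1 + Real.log M))) * (7 * (G * (1 + Real.log G)))) :=
        mul_le_mul_of_nonneg_left s6 (Nat.cast_nonneg _)
    _ = 49 * (1 + Real.log M) * (1 + Real.log G) * M * G * (R.card : ℝ) := by ring

end Pool.Agent.helper3.FT
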