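import Pool.Agent.helper3.FT.Defs

/-! FT module P2: separation. -/

set_option autoImplicit false

namespace Pool.Agent.helper3.FT

theorem P2_dvd_gcd {h D a b : ℤ} (h1 : h ∣ D * a) (h2 : h ∣ D * b) : h ∣ D * (Int.gcd a b : ℤ) := by
  rw [Int.gcd_eq_gcd_ab a b]
  have : D * (a * Int.gcdA a b + b * Int.gcdB a b) = D * a * Int.gcdA a b + D * b * Int.gcdB a b := by ring
  rw [this]
  exact dvd_add (Dvd.dvd.mul_right h1 _) (Dvd.dvd.mul_right h2 _)

theorem P2_coprime {h E : ℤ} (H : ∀ p : ℕ, p.Prime → (p : ℤ) ∣ h → ¬ (p : ℤ) ∣ E) : IsCoprime h E := by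
  rw [Int.isCoprime_iff_gcd_eq_one]
  apply Nat.coprime_of_dvd
  intro p hp h1 h2
  exact H p hp (Int.natCast_dvd.mpr h1) (Int.natCast_dvd.mpr h2)

/-- P2 -/
theorem separation (h A A' B X n k n' k' : ℤ) (hc : IsCoprime h (5 * (n * k)))
    (hc' : IsCoprime h (5 * (n' * k'))) (h1 : h ∣ F1 A A' B n k) (h2 : h ∣ F2 A' B X n k)
    (h3 : h ∣ F1 A A' B n' k') (h4 : h ∣ F2 A' B X n' k')
    (hp : ∀ p : ℕ, p.Prime → (p : ℤ) ∣ h → (p : ℤ) ∣ n * k' - n' * k)
    (hg : ∀ p : ℕ, p.Prime → (p : ℤ) ∣ h →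
      ¬ ((p : ℤ) ∣ A ∧ (p : ℤ) ∣ A' ∧ (p : ℤ) ∣ B ∧ (p : ℤ) ∣ X)) :
    h ∣ n * k' - n' * k := by
  set D : ℤ := n * k' - n' * k with hD
  set E : ℤ := (n * k') ^ 2 + 3 * (n * k') * (n' * k) + (n' * k) ^ 2 with hE
  set s : ℤ := (n * k') ^ 2 + (n * k') * (n' * k) + (n' * k) ^ 2 with hs
  set t : ℤ := n * k' + n' * k with ht
  have e1 : h ∣ D * (2 * n * n' * t * A' - s * B) := by
    have : D * (2 * n * n' * t * A' - s * B) = n' ^ 3 * F1 A A' B n k - n ^ 3 * F1 A A' B n' k' := by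
      simp only [hD, hs, ht, F1]
      ring
    rw [this]
    exact dvd_sub (Dvd.dvd.mul_left h1 _) (Dvd.dvd.mul_left h3 _)
  have e2 : h ∣ D * (s * A' + 2 * k * k' * t * B) := by
    have : D * (s * A' + 2 * k * k' * t * B) = k' ^ 3 * F2 A' B X n k - k ^ 3 * F2 A' B X n' k' := by
      simp only [hD, hs, ht, F2]
      ring
    rw [this]
    exact dvd_sub (Dvd.dvd.mul_left h2 _) (Dvd.dvd.mul_left h4 _)
  have hcE : IsCoprime h E := by
    apply P2_coprime
    intro p hpp hph hpE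
    have hpD := hp p hpp hph
    have h5 : (p : ℤ) ∣ (5 * (n * k)) * (5 * (n' * k')) := by
      have : (5 * (n * k)) * (5 * (n' * k')) = 5 * (E - D ^ 2) := by
        simp only [hE, hD]
        ring
      rw [this]
      exact Dvd.dvd.mul_left (dvd_sub hpE (Dvd.dvd.pow hpD (by norm_num))) _
    have h6 := (hc.mul_right hc').of_isCoprime_of_dvd_left hph
    have h7 := h6.isUnit_of_dvd' dvd_rfl h5
    exact (Nat.prime_iff_prime_int.mp hpp).not_unit h7
  have e3 : h ∣ D * A' := by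
    have : h ∣ E ^ 2 * (D * A') := by
      have : E ^ 2 * (D * A') = 2 * k * k' * t * (D * (2 * n * n' * t * A' - s * B)) +
          s * (D * (s * A' + 2 * k * k' * t * B)) := by
        simp only [hE, hD, hs, ht]
        ring
      rw [this]
      exact dvd_add (Dvd.dvd.mul_left e1 _) (Dvd.dvd.mul_left e2 _)
    exact (hcE.pow_right (n := 2)).dvd_of_dvd_mul_left this
  have e4 : h ∣ D * B := by
    have : h ∣ E ^ 2 * (D * B) := by
      have : E ^ 2 * (D * B) = 2 * n * n' * t * (D * (s * A' + 2 * k * k' * t * B)) -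
          s * (D * (2 * n * n' * t * A' - s * B)) := by
        simp only [hE, hD, hs, ht]
        ring
      rw [this]
      exact dvd_sub (Dvd.dvd.mul_left e2 _) (Dvd.dvd.mul_left e1 _)
    exact (hcE.pow_right (n := 2)).dvd_of_dvd_mul_left this
  have c5 : IsCoprime h 5 := hc.of_mul_right_left
  have cn : IsCoprime h n := hc.of_mul_right_right.of_mul_right_left
  have ck : IsCoprime h k := hc.of_mul_right_right.of_mul_right_right
  have e5 : h ∣ D * A := by
    have : h ∣ (5 * n ^ 3) * (D * A) := by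
      have : (5 * n ^ 3) * (D * A) = D * F1 A A' B n k + 2 * n * k ^ 2 * (D * A') - k ^ 3 * (D * B) := by
        simp only [F1]
        ring
      rw [this]
      exact dvd_sub (dvd_add (Dvd.dvd.mul_left h1 _) (Dvd.dvd.mul_left e3 _)) (Dvd.dvd.mul_left e4 _)
    exact (c5.mul_right (cn.pow_right (n := 3))).dvd_of_dvd_mul_left this
  have e6 : h ∣ D * X := by
    have : h ∣ (5 * k ^ 3) * (D * X) := by
      have : (5 * k ^ 3) * (D * X) = n ^ 3 * (D * A') + 2 * n ^ 2 * k * (D * B) - D * F2 A' B X n k := by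
        simp only [F2]
        ring
      rw [this]
      exact dvd_sub (dvd_add (Dvd.dvd.mul_left e3 _) (Dvd.dvd.mul_left e4 _)) (Dvd.dvd.mul_left h2 _)
    exact (c5.mul_right (ck.pow_right (n := 3))).dvd_of_dvd_mul_left this
  have e7 := P2_dvd_gcd (P2_dvd_gcd e5 e3) (P2_dvd_gcd e4 e6)
  have hcop : IsCoprime h ((Int.gcd (Int.gcd A A' : ℤ) (Int.gcd B X : ℤ) : ℕ) : ℤ) := by
    apply P2_coprime
    intro p hpp hph hpd
    have g1 := dvd_trans hpd (Int.gcd_dvd_left _ _)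
    have g2 := dvd_trans hpd (Int.gcd_dvd_right _ _)
    exact hg p hpp hph ⟨dvd_trans g1 (Int.gcd_dvd_left _ _), dvd_trans g1 (Int.gcd_dvd_right _ _),
      dvd_trans g2 (Int.gcd_dvd_left _ _), dvd_trans g2 (Int.gcd_dvd_right _ _)⟩
  exact hcop.dvd_of_dvd_mul_right e7

end Pool.Agent.helper3.FT
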